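import Pool.Agent.Helper17.OD.GoalsZV

/-! # OD SCL: set collection -/

namespace Pool.Agent.Helper17.OD.PkSCL

open Set Pool.Agent.Helper17.OD

theorem thm (hSOB : G_SOB) (hLST : G_LST) (hTRE : G_TRE) : G_SCL := by
  intro k S hS hPE Q hQ A hA hex
  have := hS
  have hk := hS.lim
  have hInD : SD k S S (fun e _ => InD e.fst e.snd) := (hTRE k S S hS).2.2.2.2.2.1
  obtain ⟨dA, hdA, hAd⟩ := hS.bdd A hA
  have hsob := hSOB k S S hS
  -- bound the witnesses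
  have hP1 : SD k S S (fun e _ => (e.fst).IsOrd ∧ ∃ Y ∈ S, Q e.snd Y ∧
      ∀ z ∈ D (Iio k), z ∈ Y → InD e.fst z) := by
    apply_rules [SD.exT, SD.allT, SD.exS, SD.allS, SD.isOrd, SD.llt, SD.mem, SD.eq, SD.not, SD.and,
      SD.or, SD.iff, SD.imp, ST.id, ST.fst, ST.snd, ST.pr, ST.nat, ST.ordc, SV.var, SV.par,
      SD.app2, SD.appS1, SD.const]
  obtain ⟨b0, hb0, hb⟩ := hsob.2.2.2.2.2.2.2.2 A hA
    (fun b y => y.IsOrd ∧ ∃ Y ∈ S, Q b Y ∧ ∀ z ∈ D (Iio k), z ∈ Y → InD y z) hP1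
    (fun b hbA => by
      obtain ⟨Y, hY, hQY⟩ := hex b hbA
      obtain ⟨d, hd, hYd⟩ := hS.bdd Y hY
      exact ⟨.ord d, ord_mem.2 hd, trivial, Y, hY, hQY, fun z _ hz => ⟨d, rfl, hYd hz⟩⟩)
  obtain ⟨X, hX, hXe⟩ := hPE b0 hb0
  obtain ⟨dX, hdX, hXd⟩ := hS.bdd X hX
  have hP2 : SD k S S (fun e _ => ∃ Y ∈ S, Q e.fst Y ∧
      ∀ z ∈ D (Iio k), (z ∈ Y ↔ Tr.pr e.snd z ∈ X)) := by
    apply_rules [SD.exT, SD.allT, SD.exS, SD.allS, SD.isOrd, SD.llt, SD.mem, SD.eq, SD.not, SD.and,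
      SD.or, SD.iff, SD.imp, ST.id, ST.fst, ST.snd, ST.pr, ST.nat, ST.ordc, SV.var, SV.par,
      SD.app2, SD.appS1, SD.const]
  obtain ⟨g, hg, -, hgS⟩ := hLST k S S hS
    (fun b i => ∃ Y ∈ S, Q b Y ∧ ∀ z ∈ D (Iio k), (z ∈ Y ↔ Tr.pr i z ∈ X)) hP2
  have hgA : ∀ b ∈ A, g b ∈ D (Iio k) ∧ {x | Tr.pr (g b) x ∈ X} ∈ S ∧
      Q b {x | Tr.pr (g b) x ∈ X} := by
    intro b hbA
    have hbk : b ∈ D (Iio k) := D_mono (Iio_subset_Iio hdA.le) (hAd hbA)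
    obtain ⟨y, hy, hyo, Y, hY, hQY, hYy⟩ := hb b hbA
    have hYb : Y ⊆ D (Iio b0) := by
      intro z hz
      obtain ⟨d, hd, hYd⟩ := hS.bdd Y hY
      obtain ⟨c, hc, hzc⟩ := hYy z (D_mono (Iio_subset_Iio hd.le) (hYd hz)) hz
      rw [hc] at hy
      exact D_mono (Iio_subset_Iio (ord_mem.1 hy).le) hzc
    obtain ⟨i, hi, hYi⟩ := hXe Y hY hYb
    obtain ⟨h1, ⟨Y', hY', hQY', hY'e⟩, -⟩ := hg b hbk ⟨i, hi, Y, hY, hQY, fun z _ => by
      conv_lhs => rw [hYi]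
      rfl⟩
    have h2 : Y' = {x | Tr.pr (g b) x ∈ X} := by
      ext z
      constructor
      · intro hz
        obtain ⟨d, hd, hYd⟩ := hS.bdd Y' hY'
        exact (hY'e z (D_mono (Iio_subset_Iio hd.le) (hYd hz))).1 hz
      · intro hz
        refine (hY'e z ?_).2 hz
        exact D_mono (Iio_subset_Iio hdX.le) (pr_mem.1 (hXd hz)).2
    rw [← h2]
    exact ⟨h1, hY', hQY'⟩
  -- the family
  set F : Set T := {p | ∃ b ∈ A, ∃ x, p = .pr b x ∧ Tr.pr (g b) x ∈ X} with hF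
  have hFb : ∀ b ∈ A, {x | Tr.pr b x ∈ F} = {x | Tr.pr (g b) x ∈ X} := by
    intro b hbA
    ext x
    constructor
    · rintro ⟨b', hb', x', he, hx⟩
      injection he with h1 h2
      subst h1; subst h2
      exact hx
    · intro hx
      exact ⟨b, hbA, x, rfl, hx⟩
  have hFS : F ∈ S := by
    have hmax : max dA dX < k := max_lt hdA hdX
    refine SOM.of_SD (k := k) (S := S) (S' := S) hmax ?_ ?_
    · rintro p ⟨b, hbA, x, rfl, hx⟩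
      exact pr_mem.2 ⟨D_mono (Iio_subset_Iio (le_max_left _ _)) (hAd hbA),
        D_mono (Iio_subset_Iio (le_max_right _ _)) (pr_mem.1 (hXd hx)).2⟩
    · obtain ⟨R, hR⟩ : ∃ R : T → T → Prop, ∀ a i, R a i ↔ g a = i := ⟨_, fun _ _ => Iff.rfl⟩
      have hg2 : SD k S S (fun e _ => R e.fst e.snd) := hgS.congr fun _ _ _ _ => (hR _ _).symm
      have h3 : SD k S S (fun e _ => ∃ b ∈ D (Iio k), ∃ x ∈ D (Iio k), b ∈ A ∧ e = Tr.pr b x ∧
          ∃ i ∈ D (Iio k), R b i ∧ Tr.pr i x ∈ X) := by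
        apply_rules [SD.exT, SD.allT, SD.exS, SD.allS, SD.isOrd, SD.llt, SD.mem, SD.eq, SD.not,
          SD.and, SD.or, SD.iff, SD.imp, ST.id, ST.fst, ST.snd, ST.pr, ST.nat, ST.ordc, SV.var,
          SV.par, SD.app2, SD.const]
      refine h3.congr fun e he σ hσ => ?_
      simp only [hR]
      constructor
      · rintro ⟨b, hbk, x, hxk, hbA, rfl, i, hi, hgi, hx⟩
        exact ⟨b, hbA, x, rfl, by rw [hgi]; exact hx⟩
      · rintro ⟨b, hbA, x, rfl, hx⟩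
        exact ⟨b, (pr_mem.1 he).1, x, (pr_mem.1 he).2, hbA, rfl, g b, (hgA b hbA).1, rfl, hx⟩
  refine ⟨F, hFS, fun b hbA => ?_⟩
  rw [hFb b hbA]
  exact (hgA b hbA).2

end Pool.Agent.Helper17.OD.PkSCL
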