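import Pool.Agent.Helper17.OD.GoalsZV

/-! # OD VPW: power set -/

namespace Pool.Agent.Helper17.OD.PkVPW

open Set Pool.Agent.Helper17.OD

theorem tg_inj {n : ℕ} {x y : T} (h : tg n x = tg n y) : x = y := by
  unfold tg at h
  injection h

theorem thm (hFAM : G_FAM) (hEQM : G_EQM) (hSOB : G_SOB) (hCVL : G_CVL) (hCOD : G_COD) :
    G_VPW := by
  intro k S hS hPE x hx
  have := hS
  have hk := hS.lim
  obtain ⟨X, hX, hXx⟩ := hx
  obtain ⟨hXS, hXw⟩ := hX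
  obtain ⟨hu, -, hbis, hel, -⟩ := hCVL
  obtain ⟨hEq, -, hEqv⟩ := hEQM k S S hS
  have hsob := hSOB k S S hS
  obtain ⟨d, hd, hXd⟩ := hS.bdd X hXS
  obtain ⟨E, hE, hEe⟩ := hPE d hd
  obtain ⟨dE, hdE, hEd⟩ := hS.bdd E hE
  have hd' : Order.succ dE < k := hk.succ_lt hdE
  set I : Set T := D (Iio (Order.succ dE)) with hI
  have hIS : I ∈ S := hsob.2.1 _ hd'
  have hval := (hCOD k S hS X ⟨hXS, hXw⟩).2.1
  -- the family of codes
  set F : Set T := {e | ∃ i ∈ I, (∃ a b, e = .pr i (.pr (tg 1 a) (tg 1 b)) ∧ Tr.pr a b ∈ X) ∨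
    ∃ b, e = .pr i (.pr (tg 1 b) (.nat 0)) ∧ Tr.pr i b ∈ E ∧ Tr.pr b (.nat 0) ∈ X} with hF
  have hkm : ∀ {Y : Set T} {c : O} {y : T}, c < k → Y ⊆ D (Iio c) → y ∈ Y → y ∈ D (Iio k) :=
    fun hc hY hy => D_mono (Iio_subset_Iio hc.le) (hY hy)
  have hFS : F ∈ S := by
    have hm : max (Order.succ dE) d < k := max_lt hd' hd
    refine SOM.of_SD (k := k) (S := S) (S' := S) hm ?_ ?_
    · rintro e ⟨i, hi, ⟨a, b, rfl, hab⟩ | ⟨b, rfl, -, hb⟩⟩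
      · have h1 := pr_mem.1 (hXd hab)
        have h2 : D (Iio d) ⊆ D (Iio (max (Order.succ dE) d)) :=
          D_mono (Iio_subset_Iio (le_max_right _ _))
        exact pr_mem.2 ⟨D_mono (Iio_subset_Iio (le_max_left _ _)) hi, pr_mem.2
          ⟨pr_mem.2 ⟨nat_mem _ _, h2 h1.1⟩, pr_mem.2 ⟨nat_mem _ _, h2 h1.2⟩⟩⟩
      · have h1 := pr_mem.1 (hXd hb)
        have h2 : D (Iio d) ⊆ D (Iio (max (Order.succ dE) d)) :=
          D_mono (Iio_subset_Iio (le_max_right _ _))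
        exact pr_mem.2 ⟨D_mono (Iio_subset_Iio (le_max_left _ _)) hi, pr_mem.2
          ⟨pr_mem.2 ⟨nat_mem _ _, h2 h1.1⟩, nat_mem _ _⟩⟩
    · have h3 : SD k S S (fun e _ => ∃ i ∈ D (Iio k), i ∈ I ∧
          ((∃ a ∈ D (Iio k), ∃ b ∈ D (Iio k),
            e = .pr i (.pr (.pr (.nat 1) a) (.pr (.nat 1) b)) ∧ Tr.pr a b ∈ X) ∨
          ∃ b ∈ D (Iio k), e = .pr i (.pr (.pr (.nat 1) b) (.nat 0)) ∧ Tr.pr i b ∈ E ∧
            Tr.pr b (.nat 0) ∈ X)) := by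
        apply_rules [SD.exT, SD.allT, SD.exS, SD.allS, SD.isOrd, SD.llt, SD.mem, SD.eq, SD.not,
          SD.and, SD.or, SD.iff, SD.imp, ST.id, ST.fst, ST.snd, ST.pr, ST.nat, ST.ordc, SV.var,
          SV.par, SD.app2, SD.const]
        all_goals apply_rules [SD.exT, SD.allT, SD.exS, SD.allS, SD.isOrd, SD.llt, SD.mem, SD.eq,
          SD.not, SD.and, SD.or, SD.iff, SD.imp, ST.id, ST.fst, ST.snd, ST.pr, ST.nat, ST.ordc,
          SV.var, SV.par, SD.app2, SD.const]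
      refine h3.congr fun e he σ hσ => ?_
      constructor
      · rintro ⟨i, -, hi, ⟨a, -, b, -, h1, h2⟩ | ⟨b, -, h1, h2, h4⟩⟩
        · exact ⟨i, hi, Or.inl ⟨a, b, h1, h2⟩⟩
        · exact ⟨i, hi, Or.inr ⟨b, h1, h2, h4⟩⟩
      · rintro ⟨i, hi, ⟨a, b, h1, h2⟩ | ⟨b, h1, h2, h4⟩⟩
        · exact ⟨i, D_mono (Iio_subset_Iio hd'.le) hi, hi, Or.inl
            ⟨a, (pr_mem.1 (hkm hd hXd h2)).1, b, (pr_mem.1 (hkm hd hXd h2)).2, h1, h2⟩⟩
        · exact ⟨i, D_mono (Iio_subset_Iio hd'.le) hi, hi, Or.inr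
            ⟨b, (pr_mem.1 (hkm hd hXd h4)).1, h1, h2, h4⟩⟩
  have hsec : ∀ i ∈ I, ∀ a b, (rel {p | Tr.pr i p ∈ F} a b ↔
      (∃ a' b', a = tg 1 a' ∧ b = tg 1 b' ∧ Tr.pr a' b' ∈ X) ∨
      ∃ b', a = tg 1 b' ∧ b = .nat 0 ∧ Tr.pr i b' ∈ E ∧ Tr.pr b' (.nat 0) ∈ X) := by
    intro i hi a b
    constructor
    · rintro ⟨i', -, ⟨a', b', h1, h2⟩ | ⟨b', h1, h2, h3⟩⟩
      · injection h1 with h4 h5
        injection h5 with h6 h7
        exact Or.inl ⟨a', b', h6, h7, h2⟩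
      · injection h1 with h4 h5
        injection h5 with h6 h7
        subst h4
        exact Or.inr ⟨b', h6, h7, h2, h3⟩
    · rintro (⟨a', b', rfl, rfl, h⟩ | ⟨b', rfl, rfl, h1, h2⟩)
      · exact ⟨i, hi, Or.inl ⟨a', b', rfl, h⟩⟩
      · exact ⟨i, hi, Or.inr ⟨b', rfl, h1, h2⟩⟩
  have hcd : ∀ i ∈ I, IsCd S {p | Tr.pr i p ∈ F} := by
    intro i hi
    refine ⟨hsob.2.2.2.2.1 F hFS i (D_mono (Iio_subset_Iio hd'.le) hi), ?_⟩
    intro Y hY hYn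
    by_cases hY1 : ∃ a, tg 1 a ∈ Y
    · obtain ⟨a, ha⟩ := hY1
      have hY2 : {a | Tr.pr (.nat 1) a ∈ Y} ∈ S := hsob.2.2.2.2.1 Y hY (.nat 1) (nat_mem _ _)
      obtain ⟨a0, ha0, hmin⟩ := hXw _ hY2 ⟨a, ha⟩
      refine ⟨tg 1 a0, ha0, fun z hz hzX => ?_⟩
      rcases (hsec i hi z (tg 1 a0)).1 hzX with ⟨a', b', rfl, h2, h3⟩ | ⟨b', -, h2, -⟩
      · have := tg_inj h2
        subst this
        exact hmin a' hz h3
      · unfold tg at h2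
        cases h2
    · obtain ⟨y, hy⟩ := hYn
      refine ⟨y, hy, fun z hz hzX => ?_⟩
      rcases (hsec i hi z y).1 hzX with ⟨a', b', rfl, h2, h3⟩ | ⟨b', rfl, h2, -⟩
      · exact hY1 ⟨a', hz⟩
      · exact hY1 ⟨b', hz⟩
  have hlift : ∀ i ∈ I, ∀ y b, Cvl (rel X) y b → Cvl (rel {p | Tr.pr i p ∈ F}) y (tg 1 b) := by
    intro i hi y b hb
    refine hbis (rel X) (rel {p | Tr.pr i p ∈ F}) (fun a b => b = tg 1 a) ?_ y b (tg 1 b) rfl hb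
    rintro a b rfl
    constructor
    · intro a' ha'
      exact ⟨tg 1 a', (hsec i hi _ _).2 (Or.inl ⟨a', a, rfl, rfl, ha'⟩), rfl⟩
    · intro b' hb'
      rcases (hsec i hi _ _).1 hb' with ⟨a', c', rfl, h2, h3⟩ | ⟨b', -, h2, -⟩
      · have := tg_inj h2
        subst this
        exact ⟨a', h3, rfl⟩
      · unfold tg at h2
        cases h2
  obtain ⟨y, hy, hyF⟩ := hFAM k S hS F hFS I hIS hcd
  refine ⟨y, hy, fun z => ?_⟩
  rw [hyF]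
  constructor
  · rintro ⟨i, hi, hz⟩
    refine ⟨⟨_, hcd i hi, hz⟩, fun u hu' => ?_⟩
    obtain ⟨a, ha, hau⟩ := (hel _ _ _ hz u).1 hu'
    rcases (hsec i hi _ _).1 ha with ⟨a', b', -, h2, -⟩ | ⟨b, rfl, -, -, hb⟩
    · unfold tg at h2
      cases h2
    · obtain ⟨u', hu''⟩ := hval b
      have := hu _ _ _ _ hau (hlift i hi _ _ hu'')
      subst this
      exact (hel _ _ _ hXx u).2 ⟨b, hb, hu''⟩
  · rintro ⟨⟨Z, hZ, hZz⟩, hzx⟩
    obtain ⟨dZ, hdZ, hZd⟩ := hS.bdd Z hZ.1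
    have hZS := hZ.1
    -- the subset
    set Y : Set T := {b | Tr.pr b (.nat 0) ∈ X ∧ ∃ a ∈ D (Iio k), Tr.pr a (.nat 0) ∈ Z ∧
      Eqv S (rel Z) (rel X) a b} with hY
    have hYd : Y ⊆ D (Iio d) := fun b hb => (pr_mem.1 (hXd hb.1)).1
    have hYS : Y ∈ S := by
      refine SOM.of_SD (k := k) (S := S) (S' := S) hd hYd ?_
      have hq : ∀ (s : T → T), ST k s → SD k S S (fun e _ => Eqv S (rel Z) (rel X) (s e).fst
          (s e).snd) := by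
        intro s hs
        have h1 := SD.appS2 (S := S) (S' := S) (k := k)
          (R := fun e A B => Eqv S (rel A) (rel B) e.fst e.snd) (t := s)
          (θ := fun _ => Z) (θ' := fun _ => X) hEq hs (SV.par hZS) (SV.par hXS)
        exact h1
      obtain ⟨R, hR⟩ : ∃ R : T → T → Prop, ∀ a b, R a b ↔ Eqv S (rel Z) (rel X) a b :=
        ⟨_, fun _ _ => Iff.rfl⟩
      have hR2 : SD k S S (fun e _ => R e.fst e.snd) :=
        (hq _ ST.id).congr fun _ _ _ _ => (hR _ _).symm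
      have h3 : SD k S S (fun e _ => Tr.pr e (.nat 0) ∈ X ∧ ∃ a ∈ D (Iio k),
          Tr.pr a (.nat 0) ∈ Z ∧ R a e) := by
        apply_rules [SD.exT, SD.allT, SD.exS, SD.allS, SD.isOrd, SD.llt, SD.mem, SD.eq, SD.not,
          SD.and, SD.or, SD.iff, SD.imp, ST.id, ST.fst, ST.snd, ST.pr, ST.nat, ST.ordc, SV.var,
          SV.par, SD.app2, SD.const]
      refine h3.congr fun e he σ hσ => ?_
      simp only [hR]
      rfl
    have hYm : ∀ b, b ∈ Y ↔ Tr.pr b (.nat 0) ∈ X ∧ ∃ u ∈ z, Cvl (rel X) u b := by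
      intro b
      constructor
      · rintro ⟨h1, a, ha, haZ, hab⟩
        refine ⟨h1, ?_⟩
        obtain ⟨u, hu1, hu2⟩ := (hEqv Z X hZ ⟨hXS, hXw⟩ a ha b
          (pr_mem.1 (hkm hd hXd h1)).1).1 hab
        exact ⟨u, (hel _ _ _ hZz u).2 ⟨a, haZ, hu1⟩, hu2⟩
      · rintro ⟨h1, u, huz, hub⟩
        obtain ⟨a, haZ, hau⟩ := (hel _ _ _ hZz u).1 huz
        have hak : a ∈ D (Iio k) := (pr_mem.1 (hkm hdZ hZd haZ)).1
        exact ⟨h1, a, hak, haZ, (hEqv Z X hZ ⟨hXS, hXw⟩ a hak b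
          (pr_mem.1 (hkm hd hXd h1)).1).2 ⟨u, hau, hub⟩⟩
    obtain ⟨i, hi, hiY⟩ : ∃ i ∈ I, ∀ b, b ∈ Y ↔ Tr.pr i b ∈ E := by
      rcases Y.eq_empty_or_nonempty with h0 | ⟨b, hb⟩
      · refine ⟨.ord dE, ord_mem.2 (Order.lt_succ dE), fun b => ?_⟩
        rw [h0]
        constructor
        · intro h; exact absurd h (notMem_empty _)
        · intro h
          exact absurd (mem_Iio.1 (ord_mem.1 (pr_mem.1 (hEd h)).1)) (lt_irrefl _)
      · obtain ⟨i, -, hi⟩ := hEe Y hYS hYd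
        refine ⟨i, ?_, fun b => by rw [hi]; rfl⟩
        have h1 : Tr.pr i b ∈ E := by
          rw [hi] at hb; exact hb
        exact D_mono (Iio_subset_Iio (Order.le_succ dE)) (pr_mem.1 (hEd h1)).1
    refine ⟨i, hi, (cvl_iff _ _ _).2 ⟨fun u huz => ?_, fun a ha => ?_⟩⟩
    · obtain ⟨b, hb, hub⟩ := (hel _ _ _ hXx u).1 (hzx huz)
      refine ⟨tg 1 b, (hsec i hi _ _).2 (Or.inr ⟨b, rfl, rfl, ?_, hb⟩), hlift i hi _ _ hub⟩
      exact (hiY b).1 ((hYm b).2 ⟨hb, u, huz, hub⟩)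
    · rcases (hsec i hi _ _).1 ha with ⟨a', b', -, h2, -⟩ | ⟨b, rfl, -, hbE, hb⟩
      · unfold tg at h2
        cases h2
      · obtain ⟨-, u, huz, hub⟩ := (hYm b).1 ((hiY b).2 hbE)
        exact ⟨u, huz, hlift i hi _ _ hub⟩

end Pool.Agent.Helper17.OD.PkVPW
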