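import Pool.Agent.Helper17.OD.GoalsZV

/-! # OD VTR: the model is transitive, countable, of height `k` -/

namespace Pool.Agent.Helper17.OD.PkVTR

open Set Pool.Agent.Helper17.OD

theorem thm (hSBC : G_SBC) (hEEV : G_EEV) (hCOD : G_COD) (hCVL : G_CVL) : G_VTR := by
  intro k S hS
  obtain ⟨hu, -, -, hel, -⟩ := hCVL
  have hsb := (hSBC k S S hS).2.2
  refine ⟨?_, ?_, ?_⟩
  · rintro x ⟨X, hX, hXx⟩ y hy
    obtain ⟨a, -, ha⟩ := (hel _ _ _ hXx y).1 hy
    exact hsb X hX a y ha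
  · intro hc
    have : Vof S ⊆ ⋃ X ∈ S, {z | Cvl (rel X) z (.nat 0)} := by
      rintro z ⟨X, hX, hz⟩
      exact mem_biUnion hX.1 hz
    refine Set.Countable.mono this (hc.biUnion fun X _ => ?_)
    refine Set.Subsingleton.countable ?_
    intro z hz z' hz'
    exact hu _ _ _ _ hz hz'
  · intro a
    constructor
    · rintro ⟨X, hX, hz⟩
      have := (hCOD k S hS X hX).2.2 _ _ hz
      rwa [Ordinal.rank_toZFSet] at this
    · intro ha
      obtain ⟨-, -, -, hord, hres, hsd⟩ := hEEV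
      have hk := hS.lim
      have hd : Order.succ a < k := hk.succ_lt ha
      have h1 := (hsd k S S hS).2 _ hd
      have h2 : tg 1 (.ord a) ∈ D (Iio (Order.succ a)) :=
        pr_mem.2 ⟨nat_mem _ _, ord_mem.2 (Order.lt_succ a)⟩
      exact hsb _ h1.2 _ _ ((hres _ _ h2 _).2 (hord a))

end Pool.Agent.Helper17.OD.PkVTR
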